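import Pool.Agent.R945.RB.M

/-!
# Basis property of the root vectors of the point-restart Laplacian, rational restart point

For every rational `a ∈ (-1, 1)` a root system of `H` (in a suitable enumeration) is a Schauder
basis of `L²((-π/2, π/2))`; it is even a Riesz basis.
-/

namespace Pool.Agent.Results.MP_1ebdda_an.Full

open MeasureTheory Filter Topology

/-- Lebesgue measure on the interval `(-π/2, π/2)`. -/
noncomputable abbrev μ : Measure ℝ :=
  volume.restrict (Set.Ioo (-(Real.pi / 2)) (Real.pi / 2))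

/-- The complex Hilbert space `L²((-π/2, π/2))`. -/
noncomputable abbrev L2 := Lp ℂ 2 μ

/-- `IsHOf a ψ φ`: `ψ` lies in the domain of the point-restart Laplacian `H` with restart point
`(π/2) a`, and `H ψ = -ψ'' = φ`. In detail: `ψ` is almost everywhere equal to a function `u` which
is differentiable on `[-π/2, π/2]` with derivative `v`, where `v` is absolutely continuous with
`v' = -φ` (that is, `v x = v(-π/2) - ∫_{-π/2}^x φ`), and `u(-π/2) = u((π/2) a) = u(π/2)`. -/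
def IsHOf (a : ℝ) (ψ φ : L2) : Prop :=
  ∃ u v : ℝ → ℂ, (∀ᵐ x ∂μ, ψ x = u x) ∧
    (∀ x ∈ Set.Icc (-(Real.pi / 2)) (Real.pi / 2),
      HasDerivWithinAt u (v x) (Set.Icc (-(Real.pi / 2)) (Real.pi / 2)) x) ∧
    (∀ x ∈ Set.Icc (-(Real.pi / 2)) (Real.pi / 2),
      v x = v (-(Real.pi / 2)) - ∫ t in (-(Real.pi / 2))..x, φ t) ∧
    u (-(Real.pi / 2)) = u (Real.pi / 2 * a) ∧ u (Real.pi / 2 * a) = u (Real.pi / 2)

/-- `InKer a z k ψ`: `ψ ∈ ker (H - z)^k`. -/
def InKer (a : ℝ) (z : ℂ) : ℕ → L2 → Prop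
  | 0, ψ => ψ = 0
  | k + 1, ψ => ∃ φ, IsHOf a ψ φ ∧ InKer a z k (φ - z • ψ)

/-- The sequence `Ψ` is an enumeration of a root system of `H`: the vector `Ψ i` belongs to the
number `lam i`, and for each complex number `z` the vectors `Ψ i` with `lam i = z` are linearly
independent and span the root subspace `⋃ k, ker (H - z)^k`. -/
def IsRootSystem (a : ℝ) (Ψ : ℕ → L2) (lam : ℕ → ℂ) : Prop :=
  ∀ z : ℂ, LinearIndependent ℂ (fun i : {i : ℕ // lam i = z} => Ψ i) ∧
    ∀ ψ : L2, ψ ∈ Submodule.span ℂ (Ψ '' {i | lam i = z}) ↔ ∃ k, InKer a z k ψ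

/-- The sequence `Ψ` is a Schauder (conditional) basis: every `f` has a unique expansion
`f = ∑ t i • Ψ i` with the partial sums converging in norm. -/
def IsSchauderBasis (Ψ : ℕ → L2) : Prop :=
  ∀ f : L2, ∃! t : ℕ → ℂ, Tendsto (fun n => ∑ i ∈ Finset.range n, t i • Ψ i) atTop (𝓝 f)

lemma inKer_iff (a : ℝ) (z : ℂ) (k : ℕ) (ψ : L2) :
    InKer a z k ψ ↔ Pool.Agent.R945.RB.RootKer a z k ψ := by
  induction k generalizing ψ with
  | zero => exact Iff.rfl
  | succ k ih =>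
    constructor
    · rintro ⟨φ, h1, h2⟩
      exact ⟨φ, h1, (ih _).mp h2⟩
    · rintro ⟨φ, h1, h2⟩
      exact ⟨φ, h1, (ih _).mpr h2⟩

/-- For every rational `a ∈ (-1, 1)` some enumeration `Ψ` of some root system of `H` is a Schauder
basis of `L²((-π/2, π/2))`; moreover it satisfies the two Riesz bounds, so it is a Riesz basis. -/
theorem result (a : ℚ) (ha : -1 < a) (ha' : a < 1) :
    ∃ (Ψ : ℕ → L2) (lam : ℕ → ℂ), IsRootSystem (a : ℝ) Ψ lam ∧ IsSchauderBasis Ψ ∧
      ∃ c C : ℝ, 0 < c ∧ ∀ (F : Finset ℕ) (t : ℕ → ℂ),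
        c * ∑ i ∈ F, ‖t i‖ ^ 2 ≤ ‖∑ i ∈ F, t i • Ψ i‖ ^ 2 ∧
        ‖∑ i ∈ F, t i • Ψ i‖ ^ 2 ≤ C * ∑ i ∈ F, ‖t i‖ ^ 2 := by
  have hd : (0 : ℤ) < a.den := by exact_mod_cast a.den_pos
  have hdq : (0 : ℚ) < a.den := by exact_mod_cast a.den_pos
  have hnum : (a.num : ℚ) = a * a.den := (Rat.mul_den_eq_num a).symm
  have h1 : 0 < (a.den : ℤ) + a.num := by
    have : (0 : ℚ) < ((a.den : ℤ) + a.num : ℤ) := by
      push_cast
      rw [hnum]
      nlinarith
    exact_mod_cast this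
  have h2 : 0 < (a.den : ℤ) - a.num := by
    have : (0 : ℚ) < ((a.den : ℤ) - a.num : ℤ) := by
      push_cast
      rw [hnum]
      nlinarith
    exact_mod_cast this
  obtain ⟨p, hp⟩ := Int.eq_ofNat_of_zero_le h1.le
  obtain ⟨q, hq⟩ := Int.eq_ofNat_of_zero_le h2.le
  have hp0 : 0 < p := by omega
  have hq0 : 0 < q := by omega
  obtain ⟨P, Q, hPQ, hPp, hQq⟩ := Nat.exists_coprime p q
  have hg : 0 < Nat.gcd p q := Nat.gcd_pos_of_pos_left q hp0
  have hP : 0 < P := by
    rcases Nat.eq_zero_or_pos P with h | h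
    · rw [h] at hPp; omega
    · exact h
  have hQ : 0 < Q := by
    rcases Nat.eq_zero_or_pos Q with h | h
    · rw [h] at hQq; omega
    · exact h
  have haa : (a : ℝ) = Pool.Agent.R945.RB.aa P Q := by
    unfold Pool.Agent.R945.RB.aa
    have hPr : (0 : ℝ) < P := by exact_mod_cast hP
    have hQr : (0 : ℝ) < Q := by exact_mod_cast hQ
    have hgr : (0 : ℝ) < Nat.gcd p q := by exact_mod_cast hg
    have hdr : (0 : ℝ) < a.den := by exact_mod_cast a.den_pos
    have e1 : (P : ℝ) * Nat.gcd p q = a.den + a.num := by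
      have : ((P * Nat.gcd p q : ℕ) : ℤ) = a.den + a.num := by
        rw [← hPp]; exact hp.symm
      exact_mod_cast this
    have e2 : (Q : ℝ) * Nat.gcd p q = a.den - a.num := by
      have : ((Q * Nat.gcd p q : ℕ) : ℤ) = a.den - a.num := by
        rw [← hQq]; exact hq.symm
      exact_mod_cast this
    have e3 : (a.num : ℝ) = a * a.den := by exact_mod_cast hnum
    rw [eq_div_iff (by positivity)]
    have e4 : ((a : ℝ) * (P + Q) - (P - Q)) * Nat.gcd p q = 0 := by
      linear_combination ((a : ℝ) - 1) * e1 + (a + 1 : ℝ) * e2 - 2 * e3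
    rcases mul_eq_zero.mp e4 with h | h
    · linarith
    · exact absurd h hgr.ne'
  obtain ⟨Ψ, lam, hroot, hriesz, hbasis⟩ := Pool.Agent.R945.RB.main hP hQ hPQ
  refine ⟨Ψ, lam, ?_, hbasis, hriesz⟩
  rw [haa]
  intro z
  refine ⟨(hroot z).1, fun ψ => ?_⟩
  rw [(hroot z).2 ψ]
  exact exists_congr fun k => (inKer_iff _ z k ψ).symm

end Pool.Agent.Results.MP_1ebdda_an.Full
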