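import Mathlib
import Pool.Agent.R508.BR11

set_option autoImplicit false

/-!
# MP_1ebdda_an: basis property of root vectors for a point-restart Laplacian

For every rational `a ∈ (-1,1)` the operator `H` (the Dirichlet-type Laplacian on
`(-π/2, π/2)` restarted at `πa/2`) has a root system which is a Schauder basis of `L²`, in every
enumeration.  (Proof by helper197, formalised by helper508.)
-/

open Filter Topology MeasureTheory Set

namespace Pool.Agent.Results.MP_1ebdda_an.RationalRestartRieszBasis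

open Pool.Agent.R508.BR

/-- eigenfunction of `H` for `z` -/
def IsEigenfunction (a : ℝ) (z : ℂ) (f : HH) : Prop := f ≠ 0 ∧ KerPow a z 1 f

/-- generalised eigenfunction of `H` for `z` -/
def IsGenEigenfunction (a : ℝ) (z : ℂ) (f : HH) : Prop :=
  (∃ k, 2 ≤ k ∧ KerPow a z k f) ∧ ¬ KerPow a z 1 f

/-- `ψ` (with labels `lam`) is an enumeration of a root system of `H`: it consists of
eigenfunctions and generalised eigenfunctions, and for every `z` the members labelled `z` form a
basis of the root subspace of `z` -/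
def IsRootSystem (a : ℝ) (ψ : ℕ → HH) (lam : ℕ → ℂ) : Prop :=
  (∀ n, IsEigenfunction a (lam n) (ψ n) ∨ IsGenEigenfunction a (lam n) (ψ n)) ∧
  ∀ z : ℂ, LinearIndependent ℂ (fun n : {n : ℕ // lam n = z} => ψ n) ∧
    ∀ f : HH, f ∈ Submodule.span ℂ (ψ '' {n | lam n = z}) ↔ ∃ k, KerPow a z k f

/-- Schauder (conditional) basis -/
def IsSchauder (ψ : ℕ → HH) : Prop :=
  ∀ f : HH, ∃! c : ℕ → ℂ, Tendsto (fun N => ∑ j ∈ Finset.range N, c j • ψ j) atTop (𝓝 f)

theorem exists_uv (a : ℚ) (h1 : -1 < a) (h2 : a < 1) :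
    ∃ u v : ℕ, 0 < u ∧ 0 < v ∧ u.Coprime v ∧ (a : ℝ) = aa u v := by
  set q : ℚ := (1 - a) / 2 with hq
  have hq0 : 0 < q := by rw [hq]; linarith
  have hq1 : q < 1 := by rw [hq]; linarith
  have hn0 : 0 < q.num := Rat.num_pos.2 hq0
  have hn1 : q.num < q.den := Rat.num_lt_denom_iff.2 hq1
  have hu : ((q.num.natAbs : ℕ) : ℤ) = q.num := Int.natAbs_of_nonneg hn0.le
  have hlt : q.num.natAbs < q.den := by
    have : ((q.num.natAbs : ℕ) : ℤ) < (q.den : ℤ) := by rw [hu]; exact hn1
    exact_mod_cast this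
  refine ⟨q.num.natAbs, q.den - q.num.natAbs, by omega, by omega, ?_, ?_⟩
  · have := q.reduced
    rw [Nat.coprime_sub_self_right hlt.le]
    exact this
  · unfold aa
    rw [Nat.cast_sub hlt.le]
    have e1 : (q : ℝ) = (q.num.natAbs : ℝ) / q.den := by
      have h3 : (q : ℝ) = (q.num : ℝ) / (q.den : ℝ) := by exact_mod_cast (Rat.num_div_den q).symm
      have h4 : (q.num.natAbs : ℝ) = (q.num : ℝ) := by
        rw [Nat.cast_natAbs, abs_of_pos hn0]
      rw [h3, h4]
    have e2 : (a : ℝ) = 1 - 2 * (q : ℝ) := by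
      rw [hq]; push_cast; ring
    have hd : (q.den : ℝ) ≠ 0 := by exact_mod_cast q.den_nz
    rw [e2, e1]
    field_simp
    ring

section

variable (u v : ℕ) (hu : 0 < u) (hv : 0 < v)

include hu hv in
theorem vec_ne (hcop : u.Coprime v) (i : II v) : vec u v i ≠ 0 :=
  (vec_indep u v hu hv hcop).ne_zero i

include hu hv in
theorem not_ker1 (hcop : u.Coprime v) (l : ℕ) :
    ¬ KerPow (aa u v) (lam u v (Sum.inr (Sum.inr (Sum.inl l)))) 1
      (vec u v (Sum.inr (Sum.inr (Sum.inl l)))) := by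
  rintro ⟨g, h1, h2⟩
  have hu' : (0 : ℝ) < u := by exact_mod_cast hu
  have hv' : (0 : ℝ) < v := by exact_mod_cast hv
  set κ : ℝ := (sc l : ℝ) * w3 u v with hκ
  have hsc : 0 < sc l := Nat.pos_of_ne_zero (sc_ne l)
  have hk : (κ : ℂ) ≠ 0 := by
    apply Complex.ofReal_ne_zero.2
    rw [hκ]
    unfold w3
    have : (0 : ℝ) < sc l := by exact_mod_cast hsc
    positivity
  have h3 : g - (κ : ℂ) ^ 2 • vec u v (Sum.inr (Sum.inr (Sum.inl l))) = 0 := h2
  obtain ⟨A, B, h4, _, _⟩ := ode_main (aa u v) (aa_lt u v hu hv) (κ : ℂ) hk 0 0 0 _ g h1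
    (ae_zero_sub (κ : ℂ) _ g h3)
  simp only [zero_div, sub_zero, neg_zero] at h4
  have hVc := vec_inl u v (u * sc l)
  rw [← kap_x u v hu l, ← hκ] at hVc
  have hm1 : sc ((u + v) * sc l - 1) = (u + v) * sc l := by
    have : 0 < (u + v) * sc l := by positivity
    show (u + v) * sc l - 1 + 1 = _
    omega
  have hVs := vec_s u v ((u + v) * sc l - 1)
  have hcc0 : cc u v ((u + v) * sc l) = 0 := by
    unfold cc
    have : Real.pi * (((u + v) * sc l : ℕ) : ℝ) * u / (u + v) = ((sc l * u : ℕ) : ℝ) * Real.pi := by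
      push_cast; field_simp
    rw [this, Real.sin_nat_mul_pi, div_zero]
  have hk2 : (((u + v) * sc l : ℕ) : ℝ) * 2 = κ := by
    rw [hκ]; unfold w3; push_cast; ring
  rw [hm1, hcc0, hk2] at hVs
  have hmem : vec u v (Sum.inr (Sum.inr (Sum.inl l))) ∈ Submodule.span ℂ
      (vec u v '' {Sum.inl (u * sc l), Sum.inr (Sum.inr (Sum.inr ((u + v) * sc l - 1)))}) := by
    have heq : vec u v (Sum.inr (Sum.inr (Sum.inl l))) = A • vec u v (Sum.inl (u * sc l))
        + B • vec u v (Sum.inr (Sum.inr (Sum.inr ((u + v) * sc l - 1)))) := by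
      refine hh_ext _ _ _ _ h4 (ae_add _ _ _ _ (ae_smul A _ _ hVc) (ae_smul B _ _ hVs))
        (fun x => ?_)
      simp only [EE]
      push_cast
      ring
    rw [heq]
    refine Submodule.add_mem _ (Submodule.smul_mem _ _ (Submodule.subset_span ?_))
      (Submodule.smul_mem _ _ (Submodule.subset_span ?_))
    · exact ⟨_, Or.inl rfl, rfl⟩
    · exact ⟨_, Or.inr rfl, rfl⟩
  refine (vec_indep u v hu hv hcop).notMem_span_image ?_ hmem
  rintro (h | h)
  · exact absurd h (by simp)
  · have h' : (Sum.inr (Sum.inr (Sum.inl l)) : II v)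
      = Sum.inr (Sum.inr (Sum.inr ((u + v) * sc l - 1))) := h
    simp at h'

end

/-- For rational `a ∈ (-1,1)` there is a root system of `H` every enumeration of which is a
Schauder basis of `L²((-π/2, π/2))`. -/
theorem result (a : ℚ) (h1 : -1 < a) (h2 : a < 1) :
    ∃ (ψ : ℕ → HH) (lam : ℕ → ℂ), IsRootSystem (a : ℝ) ψ lam ∧
      ∀ σ : Equiv.Perm ℕ, IsSchauder (fun n => ψ (σ n)) := by
  obtain ⟨u, v, hu, hv, hcop, ha⟩ := exists_uv a h1 h2
  rw [ha]
  obtain ⟨e⟩ : Nonempty (ℕ ≃ II v) := nonempty_equiv_of_countable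
  refine ⟨fun n => vec u v (e n), fun n => lam u v (e n), ⟨fun n => ?_, fun z => ⟨?_, ?_⟩⟩,
    fun σ => ?_⟩
  · show IsEigenfunction _ (lam u v (e n)) (vec u v (e n)) ∨
      IsGenEigenfunction _ (lam u v (e n)) (vec u v (e n))
    rcases e n with i | j | l | m
    · exact Or.inl ⟨vec_ne u v hu hv hcop _, ker_inl u v hu i⟩
    · exact Or.inl ⟨vec_ne u v hu hv hcop _, ker_inr u v hv j⟩
    · exact Or.inr ⟨⟨2, le_rfl, ker_x u v hu l⟩, not_ker1 u v hu hv hcop l⟩
    · exact Or.inl ⟨vec_ne u v hu hv hcop _, ker_s u v hu m⟩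
  · exact (vec_indep u v hu hv hcop).comp (fun n : {n : ℕ // lam u v (e n) = z} => e n.1)
      (fun x y h => Subtype.ext (e.injective h))
  · intro f
    have h3 : (fun n => vec u v (e n)) '' {n | lam u v (e n) = z}
        = vec u v '' {i | lam u v i = z} := by
      ext y
      constructor
      · rintro ⟨n, hn, rfl⟩
        exact ⟨e n, hn, rfl⟩
      · rintro ⟨i, hi, rfl⟩
        refine ⟨e.symm i, ?_, ?_⟩
        · show lam u v (e (e.symm i)) = z
          rw [e.apply_symm_apply]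
          exact hi
        · show vec u v (e (e.symm i)) = vec u v i
          rw [e.apply_symm_apply]
    rw [h3]
    have h4 : f ∈ SZ u v z ↔ f ∈ rootSp (aa u v) z := by rw [root_eq u v hu hv hcop z]
    exact h4
  · exact vec_basis u v hu hv hcop (σ.trans e)

end Pool.Agent.Results.MP_1ebdda_an.RationalRestartRieszBasis
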